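import Pool.Agent.K1H76.DK.Stm

/-! Project DK, piece LOW: lower bound for `F k n` by deleting integers with many small divisors. -/

namespace Pool.Agent.K1H95.DK
open Finset Filter Topology
open Pool.Agent.K1H76.DK

/-- number of divisors of `a` in `[1, Y]` -/
def D (Y a : ℕ) : ℕ := ((Icc 1 Y).filter (fun j => j ∣ a)).card

/-- the admissible set -/
def A (k Y n : ℕ) : Finset ℕ := (Icc 1 n).filter (fun a => n < a * Y ∧ D Y a ≤ k)

lemma A_adm {k Y n : ℕ} (hk : 1 ≤ k) (hY : 1 ≤ Y) : Admissible k (A k Y n) := by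
  intro a ha
  simp only [A, mem_filter, mem_Icc] at ha
  obtain ⟨⟨ha1, han⟩, _, haD⟩ := ha
  have hinj : ((A k Y n).filter (fun b => b ≠ a ∧ b ∣ a)).card ≤
      (((Icc 1 Y).filter (fun j => j ∣ a)).erase 1).card := by
    apply Finset.card_le_card_of_injOn (fun b => a / b)
    · intro b hb
      simp only [A, coe_filter, mem_filter, mem_Icc, Set.mem_ofPred_eq] at hb
      obtain ⟨⟨⟨hb1, hbn⟩, hbY, _⟩, hba, hbd⟩ := hb
      obtain ⟨j, rfl⟩ := hbd
      have hb0 : 0 < b := hb1
      rw [Finset.mem_coe, mem_erase, mem_filter, mem_Icc]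
      have hdiv : b * j / b = j := Nat.mul_div_cancel_left j hb0
      change b * j / b ≠ 1 ∧ (1 ≤ b * j / b ∧ b * j / b ≤ Y) ∧ b * j / b ∣ b * j
      rw [hdiv]
      have hj0 : 1 ≤ j := by
        rcases Nat.eq_zero_or_pos j with h | h
        · subst h; simp at ha1
        · exact h
      refine ⟨?_, ⟨hj0, ?_⟩, Dvd.intro_left b rfl⟩
      · rintro rfl
        exact hba (by simp)
      · have h1 : b * j < b * Y := lt_of_le_of_lt han hbY
        exact (Nat.lt_of_mul_lt_mul_left h1).le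
    · intro b hb b' hb' h
      simp only [A, coe_filter, mem_filter, mem_Icc, Set.mem_ofPred_eq] at hb hb'
      have h1 : a / b = a / b' := h
      have e1 : a / b * b = a := Nat.div_mul_cancel hb.2.2
      have e2 : a / b' * b' = a := Nat.div_mul_cancel hb'.2.2
      rw [h1] at e1
      have hpos : 0 < a / b' := Nat.div_pos (Nat.le_of_dvd ha1 hb'.2.2) hb'.1.1.1
      exact Nat.eq_of_mul_eq_mul_left hpos (e1.trans e2.symm)
  have hone : 1 ∈ (Icc 1 Y).filter (fun j => j ∣ a) := by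
    simp [hY]
  rw [Finset.card_erase_of_mem hone] at hinj
  have : ((Icc 1 Y).filter (fun j => j ∣ a)).card ≤ k := haD
  omega

lemma card_le_F {k Y n : ℕ} (hk : 1 ≤ k) (hY : 1 ≤ Y) : (A k Y n).card ≤ F k n := by
  classical
  unfold F
  apply Finset.le_sup (f := Finset.card)
  rw [mem_filter, mem_powerset]
  exact ⟨filter_subset _ _, A_adm hk hY⟩

lemma moment (m Y n : ℕ) : (∑ a ∈ Icc 1 n, ((D Y a : ℕ) : ℝ) ^ m) ≤ n * M m Y := by
  have h1 : ∀ a ∈ Icc 1 n, ((D Y a : ℕ) : ℝ) ^ m =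
      ∑ j ∈ Fintype.piFinset (fun _ : Fin m => Icc 1 Y), (if univ.lcm j ∣ a then (1 : ℝ) else 0) := by
    intro a _
    have : (D Y a) ^ m = (Fintype.piFinset (fun _ : Fin m => (Icc 1 Y).filter (fun j => j ∣ a))).card := by
      rw [Fintype.card_piFinset]
      simp [D]
    rw [← Nat.cast_pow, this, ← Finset.sum_filter, Finset.sum_const, nsmul_eq_mul, mul_one]
    congr 2
    ext j
    simp only [Fintype.mem_piFinset, mem_filter, Finset.lcm_dvd_iff, mem_univ, forall_true_left]
    exact forall_and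
  rw [Finset.sum_congr rfl h1, Finset.sum_comm, M, Finset.mul_sum]
  apply Finset.sum_le_sum
  intro j hj
  have hj' : ∀ i, 1 ≤ j i := by
    intro i
    have := Fintype.mem_piFinset.1 hj i
    exact (mem_Icc.1 this).1
  rw [← Finset.sum_filter, Finset.sum_const, nsmul_eq_mul, mul_one]
  have hc : ((Icc 1 n).filter (fun a => univ.lcm j ∣ a)).card = n / univ.lcm j := by
    have := Nat.Ioc_filter_dvd_card_eq_div n (univ.lcm j)
    rw [← this]
    congr 1
  rw [hc, mul_one_div]
  exact Nat.cast_div_le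

lemma card_lower (k m Y n : ℕ) (hk : 1 ≤ k) (hY : 1 ≤ Y) :
    (n : ℝ) - n / Y - n * M m Y / (k : ℝ) ^ m ≤ (A k Y n).card := by
  have hcov : Icc 1 n ⊆ A k Y n ∪ ((Icc 1 (n / Y)) ∪ (Icc 1 n).filter (fun a => k < D Y a)) := by
    intro a ha
    rw [mem_union, mem_union]
    by_cases h1 : n < a * Y
    · by_cases h2 : D Y a ≤ k
      · left
        exact mem_filter.2 ⟨ha, h1, h2⟩
      · right; right
        exact mem_filter.2 ⟨ha, not_le.1 h2⟩
    · right; left
      rw [mem_Icc] at ha ⊢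
      exact ⟨ha.1, (Nat.le_div_iff_mul_le (by omega)).2 (not_lt.1 h1)⟩
  have hcard := Finset.card_le_card hcov
  have h2 := hcard.trans ((card_union_le _ _).trans (Nat.add_le_add_left (card_union_le _ _) _))
  rw [Nat.card_Icc, Nat.card_Icc, Nat.add_sub_cancel, Nat.add_sub_cancel] at h2
  have hmk : (((Icc 1 n).filter (fun a => k < D Y a)).card : ℝ) * (k : ℝ) ^ m ≤ n * M m Y := by
    refine le_trans ?_ (moment m Y n)
    rw [← nsmul_eq_mul, ← Finset.sum_const]
    refine le_trans (Finset.sum_le_sum (fun a ha => ?_))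
      (Finset.sum_le_sum_of_subset_of_nonneg (filter_subset (fun a => k < D Y a) (Icc 1 n)) ?_)
    · have h := (mem_filter.1 ha).2
      have h' : (k : ℝ) ≤ D Y a := by exact_mod_cast h.le
      exact pow_le_pow_left₀ (Nat.cast_nonneg k) h' m
    · intro a _ _
      positivity
  have hkm : (0 : ℝ) < (k : ℝ) ^ m := by
    have : (0 : ℝ) < k := by exact_mod_cast hk
    positivity
  have h3 : (((Icc 1 n).filter (fun a => k < D Y a)).card : ℝ) ≤ n * M m Y / (k : ℝ) ^ m := by
    rw [le_div_iff₀ hkm]; exact hmk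
  have h4 : ((n / Y : ℕ) : ℝ) ≤ (n : ℝ) / Y := Nat.cast_div_le
  have h5 : (n : ℝ) ≤ (A k Y n).card + ((n / Y : ℕ) + ((Icc 1 n).filter (fun a => k < D Y a)).card) := by
    exact_mod_cast h2
  linarith

theorem t_LOW : S_LOW := by
  intro k m Y c hk hY hlim
  have hge : ∀ᶠ n : ℕ in atTop, (1 : ℝ) - 1 / Y - M m Y / (k : ℝ) ^ m ≤ (F k n : ℝ) / n := by
    filter_upwards [eventually_ge_atTop 1] with n hn
    have hn0 : (0 : ℝ) < n := by exact_mod_cast hn
    rw [le_div_iff₀ hn0]
    have h1 := card_lower k m Y n hk hY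
    have h2 : ((A k Y n).card : ℝ) ≤ F k n := by exact_mod_cast card_le_F hk hY
    have h3 : (1 - 1 / (Y : ℝ) - M m Y / (k : ℝ) ^ m) * n = (n : ℝ) - n / Y - n * M m Y / (k : ℝ) ^ m := by
      ring
    linarith
  have := ge_of_tendsto hlim hge
  linarith

end Pool.Agent.K1H95.DK
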